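import Pool.Agent.helper59.PT.Spec

set_option linter.all false
set_option autoImplicit false

/-!
# pt:EX — existence of the Gaussian functional (MP_2dd521_co)

`L Q = (exp (D) Q) (0)` with `D = (1/2) ∑ v w, K v w ∂_v ∂_w`, a locally nilpotent operator:
`[D, X v] = T v := ∑ w, K v w ∂_w`, `T v` commutes with `D`, so
`D ^ (n+1) (X v * Q) = X v * D ^ (n+1) Q + (n+1) • D ^ n (T v Q)`.
-/

namespace Pool.Agent.helper55.PT

open MvPolynomial

variable {V : Type} [Fintype V]

theorem pd_comm (v w : V) (Q : MvPolynomial V ℂ) :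
    pderiv v (pderiv w Q) = pderiv w (pderiv v Q) := by
  classical
  have h : (⁅(pderiv v : Derivation ℂ (MvPolynomial V ℂ) (MvPolynomial V ℂ)),
      (pderiv w : Derivation ℂ (MvPolynomial V ℂ) (MvPolynomial V ℂ))⁆) = 0 := by
    apply MvPolynomial.derivation_ext
    intro i
    rw [Derivation.commutator_apply, pderiv_X, pderiv_X]
    simp only [Pi.single_apply]
    split_ifs <;> simp
  have h2 := Derivation.congr_fun h Q
  rw [Derivation.commutator_apply] at h2
  exact sub_eq_zero.1 (by simpa using h2)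

/-- the contraction of the variable `v` -/
noncomputable def T (K : V → V → ℂ) (v : V) : MvPolynomial V ℂ →ₗ[ℂ] MvPolynomial V ℂ :=
  ∑ w, K v w • ((pderiv w : Derivation ℂ (MvPolynomial V ℂ) (MvPolynomial V ℂ)) :
    MvPolynomial V ℂ →ₗ[ℂ] MvPolynomial V ℂ)

/-- half of the Laplacian -/
noncomputable def D (K : V → V → ℂ) : MvPolynomial V ℂ →ₗ[ℂ] MvPolynomial V ℂ :=
  (2 : ℂ)⁻¹ • ∑ v, ((pderiv v : Derivation ℂ (MvPolynomial V ℂ) (MvPolynomial V ℂ)) :
    MvPolynomial V ℂ →ₗ[ℂ] MvPolynomial V ℂ) ∘ₗ T K v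

theorem T_apply (K : V → V → ℂ) (v : V) (Q : MvPolynomial V ℂ) :
    T K v Q = ∑ w, K v w • pderiv w Q := by
  simp [T]

theorem D_apply (K : V → V → ℂ) (Q : MvPolynomial V ℂ) :
    D K Q = (2 : ℂ)⁻¹ • ∑ v, pderiv v (T K v Q) := by
  simp [D]

theorem T_mul [DecidableEq V] (K : V → V → ℂ) (u v : V) (Q : MvPolynomial V ℂ) :
    T K u (X v * Q) = K u v • Q + X v * T K u Q := by
  rw [T_apply, T_apply]
  have h : ∀ w, K u w • pderiv w (X v * Q) =
      (if w = v then K u v • Q else 0) + X v * (K u w • pderiv w Q) := by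
    intro w
    rw [pderiv_mul, pderiv_X, Pi.single_apply, smul_add, mul_smul_comm]
    by_cases hw : v = w
    · subst hw
      simp
    · rw [if_neg hw, if_neg (fun h => hw h.symm)]
      simp
  rw [Finset.sum_congr rfl (fun w _ => h w), Finset.sum_add_distrib, ← Finset.mul_sum]
  simp

theorem D_mul [DecidableEq V] (K : V → V → ℂ) (hK : ∀ v w, K v w = K w v) (v : V)
    (Q : MvPolynomial V ℂ) : D K (X v * Q) = X v * D K Q + T K v Q := by
  rw [D_apply, D_apply]
  have h : ∀ u, pderiv u (T K u (X v * Q)) =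
      K v u • pderiv u Q + (if u = v then T K v Q else 0) + X v * pderiv u (T K u Q) := by
    intro u
    rw [T_mul, map_add, pderiv_mul, pderiv_X, Pi.single_apply, Derivation.map_smul, hK u v]
    by_cases hw : v = u
    · subst hw
      simp [add_assoc]
    · rw [if_neg hw, if_neg (fun h => hw h.symm)]
      simp
  rw [Finset.sum_congr rfl (fun u _ => h u), Finset.sum_add_distrib, Finset.sum_add_distrib,
    ← Finset.mul_sum, ← T_apply]
  simp only [Finset.sum_ite_eq', Finset.mem_univ, if_true]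
  rw [← two_smul ℂ (T K v Q), smul_add, smul_smul, inv_mul_cancel₀ (two_ne_zero), one_smul,
    mul_smul_comm, add_comm]

theorem T_pd (K : V → V → ℂ) (u v : V) (Q : MvPolynomial V ℂ) :
    T K v (pderiv u Q) = pderiv u (T K v Q) := by
  rw [T_apply, T_apply, map_sum]
  refine Finset.sum_congr rfl fun w _ => ?_
  rw [Derivation.map_smul, pd_comm]

theorem T_T (K : V → V → ℂ) (u v : V) (Q : MvPolynomial V ℂ) :
    T K v (T K u Q) = T K u (T K v Q) := by
  rw [T_apply K u (T K v Q), T_apply K u Q, map_sum]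
  refine Finset.sum_congr rfl fun w _ => ?_
  rw [map_smul, T_pd]

theorem T_D (K : V → V → ℂ) (v : V) (Q : MvPolynomial V ℂ) :
    T K v (D K Q) = D K (T K v Q) := by
  rw [D_apply, D_apply, map_smul, map_sum]
  congr 1
  refine Finset.sum_congr rfl fun w _ => ?_
  rw [T_pd, T_T]

theorem T_Dn (K : V → V → ℂ) (v : V) (n : ℕ) : ∀ (Q : MvPolynomial V ℂ),
    T K v ((D K ^ n) Q) = (D K ^ n) (T K v Q) := by
  induction n with
  | zero => intro Q; simp
  | succ n ih =>
    intro Q
    rw [pow_succ, Module.End.mul_apply, Module.End.mul_apply, ih, T_D]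

theorem Dn_mul [DecidableEq V] (K : V → V → ℂ) (hK : ∀ v w, K v w = K w v) (v : V) (n : ℕ) :
    ∀ (Q : MvPolynomial V ℂ),
    (D K ^ (n + 1)) (X v * Q) = X v * (D K ^ (n + 1)) Q + ((n : ℂ) + 1) • (D K ^ n) (T K v Q) := by
  induction n with
  | zero =>
    intro Q
    simp [D_mul K hK]
  | succ n ih =>
    intro Q
    rw [pow_succ (D K) (n + 1), Module.End.mul_apply, Module.End.mul_apply, D_mul K hK, map_add,
      ih, T_D, ← Module.End.mul_apply (D K ^ n) (D K), ← pow_succ]
    rw [add_assoc]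
    congr 1
    push_cast
    rw [add_smul ((n : ℂ) + 1) 1, one_smul]

theorem nil [DecidableEq V] (K : V → V → ℂ) (hK : ∀ v w, K v w = K w v) (Q : MvPolynomial V ℂ) :
    ∃ N, ∀ n, N ≤ n → (D K ^ n) Q = 0 := by
  have hC : ∀ a : ℂ, D K (C a) = 0 := by
    intro a
    rw [D_apply]
    have : ∀ v, T K v (C a) = 0 := by
      intro v
      rw [T_apply]
      simp
    simp [this]
  induction Q using MvPolynomial.induction_on with
  | C a =>
    refine ⟨1, fun n hn => ?_⟩
    obtain ⟨m, rfl⟩ : ∃ m, n = m + 1 := ⟨n - 1, by omega⟩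
    rw [pow_succ, Module.End.mul_apply, hC, map_zero]
  | add p q hp hq =>
    obtain ⟨N, hN⟩ := hp
    obtain ⟨M, hM⟩ := hq
    refine ⟨max N M, fun n hn => ?_⟩
    rw [map_add, hN n (le_trans (le_max_left _ _) hn), hM n (le_trans (le_max_right _ _) hn),
      add_zero]
  | mul_X p v hp =>
    obtain ⟨N, hN⟩ := hp
    refine ⟨N + 1, fun n hn => ?_⟩
    obtain ⟨m, rfl⟩ : ∃ m, n = m + 1 := ⟨n - 1, by omega⟩
    rw [mul_comm, Dn_mul K hK, hN _ (by omega), ← T_Dn, hN _ (by omega)]
    simp

/-- the exponential series at `0`, cut at `N` -/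
noncomputable def S (K : V → V → ℂ) (N : ℕ) (Q : MvPolynomial V ℂ) : ℂ :=
  ∑ n ∈ Finset.range N, ((n.factorial : ℂ))⁻¹ * constantCoeff ((D K ^ n) Q)

theorem S_stable (K : V → V → ℂ) (Q : MvPolynomial V ℂ) (N : ℕ)
    (hN : ∀ n, N ≤ n → (D K ^ n) Q = 0) (M : ℕ) (hM : N ≤ M) : S K M Q = S K N Q := by
  unfold S
  symm
  refine Finset.sum_subset (Finset.range_mono hM) ?_
  intro n hn hn2
  rw [hN n (by simpa using hn2)]
  simp

theorem rowEX : Pool.Agent.helper59.PT.RowEX := by
  intro V _ _ K hK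
  choose N hN using nil K hK
  have key : ∀ (Q : MvPolynomial V ℂ) (M : ℕ), N Q ≤ M → S K M Q = S K (N Q) Q :=
    fun Q M hM => S_stable K Q (N Q) (hN Q) M hM
  have hadd : ∀ P Q : MvPolynomial V ℂ, S K (N (P + Q)) (P + Q) = S K (N P) P + S K (N Q) Q := by
    intro P Q
    set M := max (N (P + Q)) (max (N P) (N Q)) with hM
    rw [← key (P + Q) M (le_max_left _ _),
      ← key P M (le_trans (le_max_left _ _) (le_max_right _ _)),
      ← key Q M (le_trans (le_max_right _ _) (le_max_right _ _))]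
    unfold S
    rw [← Finset.sum_add_distrib]
    refine Finset.sum_congr rfl fun n _ => ?_
    rw [map_add, map_add, mul_add]
  have hsmul : ∀ (c : ℂ) (Q : MvPolynomial V ℂ), S K (N (c • Q)) (c • Q) = c * S K (N Q) Q := by
    intro c Q
    set M := max (N (c • Q)) (N Q) with hM
    rw [← key (c • Q) M (le_max_left _ _), ← key Q M (le_max_right _ _)]
    unfold S
    rw [Finset.mul_sum]
    refine Finset.sum_congr rfl fun n _ => ?_
    rw [map_smul, constantCoeff_smul, smul_eq_mul]
    ring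
  let L : MvPolynomial V ℂ →ₗ[ℂ] ℂ :=
    { toFun := fun Q => S K (N Q) Q
      map_add' := hadd
      map_smul' := fun c Q => by
        rw [hsmul, RingHom.id_apply, smul_eq_mul] }
  have hL : ∀ (Q : MvPolynomial V ℂ) (M : ℕ), N Q ≤ M → L Q = S K M Q :=
    fun Q M hM => (key Q M hM).symm
  refine ⟨L, ⟨?_, ?_⟩⟩
  · rw [hL 1 (N 1 + 1) (Nat.le_succ _)]
    unfold S
    rw [Finset.sum_range_succ']
    have hC : D K 1 = 0 := by
      rw [D_apply]
      have : ∀ v, T K v 1 = 0 := by
        intro v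
        rw [T_apply]
        simp
      simp [this]
    have : ∀ n ∈ Finset.range (N 1), (((n + 1).factorial : ℂ))⁻¹ *
        constantCoeff ((D K ^ (n + 1)) (1 : MvPolynomial V ℂ)) = 0 := by
      intro n _
      rw [pow_succ, Module.End.mul_apply, hC, map_zero, map_zero, mul_zero]
    rw [Finset.sum_eq_zero this]
    simp
  · intro v Q
    have hT : L (X v * Q) = L (T K v Q) := by
      set M := max (N (X v * Q)) (N (T K v Q)) with hM
      rw [hL (X v * Q) (M + 1) (le_trans (le_max_left _ _) (Nat.le_succ _)),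
        hL (T K v Q) M (le_max_right _ _)]
      unfold S
      rw [Finset.sum_range_succ']
      have h0 : constantCoeff ((D K ^ 0) (X v * Q)) = 0 := by
        simp
      rw [h0, mul_zero, add_zero]
      refine Finset.sum_congr rfl fun n _ => ?_
      rw [Dn_mul K hK, map_add, map_mul, constantCoeff_X, zero_mul, zero_add, constantCoeff_smul,
        smul_eq_mul, ← mul_assoc, Nat.factorial_succ]
      congr 1
      have h1 : ((n : ℂ) + 1) ≠ 0 := by exact_mod_cast Nat.succ_ne_zero n
      have h2 : ((n.factorial : ℕ) : ℂ) ≠ 0 := by exact_mod_cast Nat.factorial_ne_zero n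
      push_cast
      field_simp
    rw [hT, T_apply, map_sum]
    refine Finset.sum_congr rfl fun w _ => ?_
    rw [map_smul, smul_eq_mul]

end Pool.Agent.helper55.PT
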